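import Pool.Agent.H.MP_34520e_al.B

namespace Pool.Agent.Results.MP_9293a4_al.Yes
open Pool.Agent.H.MP_34520e_al

lemma dualD {Γ : Type} [Group Γ] (n : ℕ) (hn : 3 ≤ n) (a b : ℕ → NS Γ)
    (h : (Finset.Icc 1 (n - 1)).Nonempty) :
    a 1 ⊓ ((Finset.Icc 1 (n - 1)).inf' h (fun i => (a i ⊓ a (i + 1)) ⊔ (b i ⊓ b (i + 1))) ⊔
      (b 1 ⊓ b n)) ≤ a n ⊔ ((Finset.Icc 1 (n - 1)).sup' h (fun i => a i ⊓ b i) ⊓ b n) := by
  rintro x ⟨h1, h2⟩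
  change x ∈ (a 1).1 at h1
  obtain ⟨m, rfl⟩ : ∃ m, n = m + 2 := ⟨n - 2, by omega⟩
  haveI : ∀ N : NS Γ, N.1.Normal := fun N => N.2
  obtain ⟨y, hy, c, hc, rfl⟩ := (Subgroup.mem_sup_of_normal_right (t := (b 1 ⊓ b (m + 2)).1)).1 h2
  have k : ∀ i, ∃ α β, i ∈ Finset.Icc 1 (m + 2 - 1) → (α ∈ (a i).1 ∧ α ∈ (a (i + 1)).1) ∧
      (β ∈ (b i).1 ∧ β ∈ (b (i + 1)).1) ∧ α * β = y := fun i => by
    by_cases hi : i ∈ Finset.Icc 1 (m + 2 - 1)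
    · obtain ⟨α, p, β, q, e⟩ := (Subgroup.mem_sup_of_normal_right (t := (b i ⊓ b (i + 1)).1)).1
        (Finset.inf'_le (fun i => (a i ⊓ a (i + 1)) ⊔ (b i ⊓ b (i + 1))) hi hy)
      exact ⟨α, β, fun _ => ⟨p, q, e⟩⟩
    · exact ⟨1, 1, fun h => absurd h hi⟩
  choose α β k using k
  have s : ∀ i ≤ m, β (i + 1) * c ∈ ((Finset.Icc 1 (m + 2 - 1)).sup' h (fun i => a i ⊓ b i)).1 := by
    intro i
    induction i with
    | zero =>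
      intro _
      have hi : 1 ∈ Finset.Icc 1 (m + 2 - 1) := by simp
      obtain ⟨p, q, e⟩ := k 1 hi
      refine Finset.le_sup' (fun i => a i ⊓ b i) hi ⟨?_, mul_mem q.1 hc.1⟩
      rw [← e, mul_assoc] at h1
      exact (mul_mem_cancel_left p.1).1 h1
    | succ i ih =>
      intro l
      have hi : i + 1 + 1 ∈ Finset.Icc 1 (m + 2 - 1) := by simp; omega
      obtain ⟨p, q, e⟩ := k (i + 1) (by simp; omega)
      obtain ⟨p', q', e'⟩ := k (i + 1 + 1) hi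
      rw [show β (i + 1 + 1) * c = β (i + 1 + 1) * (β (i + 1))⁻¹ * (β (i + 1) * c) by group]
      refine mul_mem (Finset.le_sup' (fun i => a i ⊓ b i) hi ⟨?_, (b (i + 1 + 1)).1.mul_mem q'.1 (inv_mem q.2)⟩)
        (ih (by omega))
      rw [eq_inv_mul_of_mul_eq e, eq_inv_mul_of_mul_eq e']
      simpa using mul_mem (inv_mem p'.1) p.2
  obtain ⟨p, q, e⟩ := k (m + 1) (by simp)
  rw [← e, mul_assoc]
  exact Subgroup.mul_mem_sup p.2 ⟨s m le_rfl, mul_mem q.2 hc.2⟩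

theorem result : ∃ (L : Type) (_ : Lattice L), Finite L ∧
    (∀ n : ℕ, 3 ≤ n → ∀ (a b : ℕ → L) (h : (Finset.Icc 1 (n - 1)).Nonempty),
      a n ⊓ ((Finset.Icc 1 (n - 1)).inf' h (fun i => a i ⊔ b i) ⊔ b n) ≤
        a 1 ⊔ ((Finset.Icc 1 (n - 1)).sup' h
          (fun i => (a i ⊔ a (i + 1)) ⊓ (b i ⊔ b (i + 1))) ⊓ (b 1 ⊔ b n))) ∧
    ¬ ∃ (S : Type) (φ : LatticeHom L (Setoid S)), Function.Injective φ ∧
      ∀ (x y : L) (p q : S),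
        (∃ z, (φ x).r p z ∧ (φ y).r z q) ↔ (∃ z, (φ y).r p z ∧ (φ x).r z q) := by
  refine ⟨(NS GG)ᵒᵈ, inferInstance, inferInstanceAs (Finite (NS GG)),
    fun n hn a b h => dualD n hn a b h, ?_⟩
  rintro ⟨X, f, hf, hc⟩
  exact not_lin f hf fun a b x y => (hc a b x y).1

end Pool.Agent.Results.MP_9293a4_al.Yes
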